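import Mathlib

set_option autoImplicit false

open Set Filter Topology Nat

namespace Pool.Agent.Results.MP_9e8ffd_lc.NotBorel

/-- The integer sequences `n` with `z ^ n k → 1` for some `z ∈ 𝕋` that is not a root of unity. -/
def S : Set (ℕ → ℤ) :=
  {n | ∃ z : Circle, ¬ IsOfFinOrder z ∧ Tendsto (fun k => z ^ n k) atTop (𝓝 1)}

lemma mem_S {n : ℕ → ℤ} : n ∈ S ↔ ∃ θ : UnitAddCircle, (∀ N : ℕ, 0 < N → N • θ ≠ 0) ∧
    Tendsto (fun k => n k • θ) atTop (𝓝 0) := by
  let h := AddCircle.homeomorphCircle (T := 1) one_ne_zero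
  have h1 : ∀ θ, h θ = AddCircle.toCircle θ := AddCircle.homeomorphCircle_apply _
  refine h.surjective.exists.trans (exists_congr fun θ => and_congr ?_ ?_)
  · simp only [isOfFinOrder_iff_pow_eq_one, not_exists, not_and, h1, ← AddCircle.toCircle_nsmul]
    rw [← AddCircle.toCircle_zero (T := 1)]
    simp only [(AddCircle.injective_toCircle one_ne_zero).eq_iff]
  · rw [h.isInducing.tendsto_nhds_iff]
    simp only [Function.comp_def, h1, AddCircle.toCircle_zsmul, AddCircle.toCircle_zero]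

def E : ℕ → ℕ
  | 0 => 0
  | j + 1 => E j + 3 * (j + 1)

def nx (j : ℕ) : ℕ := pair ((unpair (j - 1)).1 + 1) (unpair (j - 1)).2 + 1

def ch (j : ℕ) : ℕ := pair 0 j + 1

open Classical in
noncomputable def c (P : Prop) (j i : ℕ) : ℤ :=
  if i = 0 then 2 ^ E j else if i ≤ 3 * (j + 1) + 1 then
    2 ^ (i - 1) * (2 ^ E j - 2 ^ E (nx j) - if P then 2 * 2 ^ E (ch j) else 0) else 0

noncomputable def sq (T : ℕ → Prop) (k : ℕ) : ℤ := c (T (unpair k).1) (unpair k).1 (unpair k).2

def nd (y : ℕ → ℕ) : ℕ → ℕ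
  | 0 => 0
  | n + 1 => pair (y n) (nd y n) + 1

lemma nd_mono (y : ℕ → ℕ) : StrictMono (nd y) :=
  strictMono_nat_of_lt_succ fun _ => Nat.lt_succ_of_le (right_le_pair _ _)

lemma nd_inj {y z : ℕ → ℕ} : ∀ {n m : ℕ}, nd y n = nd z m → ∀ i < n, y i = z i
  | 0, _, _ => by simp
  | n + 1, 0, h => by simp [nd] at h
  | n + 1, m + 1, h => fun i hi => by
    have len : ∀ n m, nd y n = nd z m → n = m := fun n => by
      induction n with
      | zero => intro m h; cases m <;> simp_all [nd]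
      | succ n ih => intro m h; cases m <;> simp_all [nd]; exact ih _ rfl
    simp only [nd, Nat.add_right_cancel_iff, pair_eq_pair] at h
    rcases (Nat.le_of_lt_succ hi).eq_or_lt with rfl | hi
    · exact len _ _ h.2 ▸ h.1
    · exact nd_inj h.2 i hi

lemma nd_congr {y z : ℕ → ℕ} : ∀ n, (∀ i < n, y i = z i) → nd y n = nd z n
  | 0, _ => rfl
  | n + 1, h => by rw [nd, nd, h n (by omega), nd_congr n fun i hi => h i (by omega)]

lemma nd_surj (e : ℕ) : ∃ y n, nd y n = e := by
  induction e using Nat.strong_induction_on with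
  | h e ih =>
  cases e with
  | zero => exact ⟨id, 0, rfl⟩
  | succ e =>
    obtain ⟨y, n, h⟩ := ih _ (Nat.lt_succ_of_le (unpair_right_le e))
    refine ⟨Function.update y n (unpair e).1, n + 1, ?_⟩
    rw [nd, nd_congr (z := y) n fun i hi => Function.update_of_ne hi.ne _ _, h]
    simp

lemma tend {T : ℕ → Prop} {θ : UnitAddCircle} : Tendsto (fun k => sq T k • θ) atTop (𝓝 0) ↔
    ∀ ε > 0, ∃ J, ∀ j ≥ J, ∀ i, ‖c (T j) j i • θ‖ < ε := by
  simp only [Metric.tendsto_atTop, _root_.dist_zero_right]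
  refine forall₂_congr fun ε hε => ⟨fun ⟨K, h⟩ => ⟨K, fun j hj i => ?_⟩,
    fun ⟨J, h⟩ => ⟨(3 * J + 5) ^ 2, fun k hk => ?_⟩⟩
  · have := h (pair j i) (hj.le.trans (left_le_pair _ _))
    rwa [sq, unpair_pair] at this
  by_cases hj : J ≤ (unpair k).1
  · rw [sq]; exact h _ hj _
  · have := pair_lt_max_add_one_sq (unpair k).1 (unpair k).2
    rw [pair_unpair] at this
    have h2 := lt_of_pow_lt_pow_left₀ 2 (by positivity) (hk.le.trans_lt this)
    rw [sq, c, if_neg (by omega), if_neg (by omega)]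
    simpa using hε

lemma norm_mul (t : UnitAddCircle) (n : ℕ) (h : n * ‖t‖ ≤ 1 / 2) : ‖n • t‖ = n * ‖t‖ := by
  obtain ⟨r, rfl, hr⟩ : ∃ r : ℝ, (r : UnitAddCircle) = t ∧ ‖t‖ = |r| := by
    induction t using QuotientAddGroup.induction_on with
    | H r => exact ⟨r - round r, by
        rw [AddCircle.coe_sub, (AddCircle.coe_eq_zero_iff 1 (x := (round r : ℝ))).2
          ⟨round r, by simp⟩, sub_zero],
      UnitAddCircle.norm_eq⟩
  rw [← AddCircle.coe_nsmul, (AddCircle.norm_coe_eq_abs_iff 1 one_ne_zero).2, hr] <;>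
    simp_all [abs_mul]

lemma small (t : UnitAddCircle) : ∀ L : ℕ, (∀ i ≤ L, ‖(2 ^ i : ℕ) • t‖ < 1 / 4) →
    2 ^ L * ‖t‖ < 1 / 4
  | 0, h => by simpa using h 0 le_rfl
  | L + 1, h => by
    have := small t L fun i hi => h i (by omega)
    have h2 := h _ le_rfl
    rw [norm_mul _ _ (by push_cast; rw [pow_succ]; linarith)] at h2
    exact_mod_cast h2

lemma lt_nx (m e : ℕ) : nx (pair m e + 1) = pair (m + 1) e + 1 := by simp [nx]

lemma wf {T : ℕ → Prop} (h : sq T ∈ S) : ∃ b N, ∀ n ≥ N, T (nd b n) := by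
  classical
  obtain ⟨θ, hθ, h⟩ := mem_S.1 h
  rw [tend] at h
  obtain ⟨J, hJ⟩ := h (1 / 4) (by norm_num)
  let x : ℕ → UnitAddCircle := fun j => (2 ^ E j : ℕ) • θ
  let w : ℕ → ℝ := fun j => 1 / 8 ^ (j + 1)
  have hw0 : ∀ j, 0 < w j := fun j => by positivity
  have hw : ∀ j k, j < k → w k ≤ w j / 8 := fun j k hk => by
    simp only [w]
    rw [div_div, ← pow_succ]
    gcongr
    · norm_num
    · omega
  have hx0 : ∀ ε > 0, ∃ J, ∀ j ≥ J, ‖x j‖ < ε := fun ε hε => (h ε hε).imp fun J h j hj => by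
    simpa [c, x, ← natCast_zsmul] using h j hj 0
  have rel : ∀ j ≥ J, ‖x j‖ ≤ ‖x (nx j)‖ + w j / 4 + if T j then 2 * ‖x (ch j)‖ else 0 := by
    intro j hj
    have h1 := small (x j - x (nx j) - if T j then 2 • x (ch j) else 0) (3 * (j + 1)) fun i hi => by
      refine Eq.trans_lt (congrArg _ ?_) (hJ j hj (i + 1))
      rw [c, if_neg (Nat.succ_ne_zero i), if_pos (Nat.succ_le_succ hi), mul_smul, sub_smul, sub_smul,
        ← natCast_zsmul]
      split_ifs <;> simp [x, ← natCast_zsmul, mul_smul]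
    have h2 : ‖x j - x (nx j) - if T j then 2 • x (ch j) else 0‖ ≤ w j / 4 := by
      simp only [w]
      rw [pow_mul] at h1
      norm_num at h1 ⊢
      rw [le_div_iff₀ (by norm_num), ← one_div, le_div_iff₀ (by positivity)]
      linarith
    have h3 := norm_add₃_le (a := x (nx j)) (b := x j - x (nx j) - if T j then 2 • x (ch j) else 0)
      (c := if T j then 2 • x (ch j) else 0)
    have h4 := norm_nsmul_le (n := 2) (a := x (ch j))
    rw [show x (nx j) + (x j - x (nx j) - if T j then 2 • x (ch j) else 0) +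
      (if T j then 2 • x (ch j) else 0) = x j by abel] at h3
    split_ifs at h3 h2 ⊢ <;> simp_all <;> linarith
  let bad := fun e => ∃ m, J ≤ pair m e + 1 ∧ w (pair m e + 1) / 2 < ‖x (pair m e + 1)‖
  have step : ∀ e, ∃ m, bad e → T (pair m e + 1) ∧ bad (pair m e + 1) := fun e => by
    by_contra hn
    push Not at hn
    obtain ⟨m, hm, hm'⟩ := (hn 0).1
    have mono : StrictMono fun m => pair m e := strictMono_nat_of_lt_succ fun _ =>
      pair_lt_pair_left _ (lt_add_one _)
    have : ∀ k, ‖x (pair m e + 1)‖ - w (pair m e + 1) / 2 ≤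
        ‖x (pair (m + k) e + 1)‖ - w (pair (m + k) e + 1) / 2 := fun k => by
      induction k with
      | zero => rfl
      | succ k ih =>
        have a0 : J ≤ pair (m + k) e + 1 := hm.trans (by simpa using mono.monotone (by omega))
        have a1 := rel _ a0
        have a2 := hw _ _ (Nat.add_lt_add_right (mono (lt_add_one (m + k))) 1)
        have a3 := hw _ (ch (pair (m + k) e + 1)) (Nat.lt_succ_of_le (right_le_pair _ _))
        have a4 := hw0 (pair (m + k + 1) e + 1)
        rw [lt_nx] at a1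
        rw [← add_assoc]
        split_ifs at a1 with hT
        · have : ‖x (ch (pair (m + k) e + 1))‖ ≤ w (ch (pair (m + k) e + 1)) / 2 :=
            not_lt.1 fun h => (hn _).2 hT ⟨0, a0.trans (Nat.le_succ_of_le (right_le_pair _ _)), h⟩
          linarith
        · linarith
    obtain ⟨K, hK⟩ := hx0 _ (sub_pos.2 hm')
    have h1 := hK (pair (m + K) e + 1) (by have := left_le_pair (m + K) e; omega)
    linarith [this K, hw0 (pair (m + K) e + 1)]
  choose mm hmm using step
  by_cases hb : ∃ e, bad e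
  · obtain ⟨e, he⟩ := hb
    obtain ⟨y, n, rfl⟩ := nd_surj e
    obtain ⟨a, h0, hs⟩ : ∃ a : ℕ → ℕ, a 0 = nd y n ∧ ∀ k, a (k + 1) = pair (mm (a k)) (a k) + 1 :=
      ⟨fun k => Nat.rec (nd y n) (fun _ a => pair (mm a) a + 1) k, rfl, fun _ => rfl⟩
    have h1 : ∀ k, bad (a k) := fun k => by
      induction k with
      | zero => rwa [h0]
      | succ k ih => exact hs k ▸ (hmm _ ih).2
    have h2 : ∀ k, nd (fun i => if i < n then y i else mm (a (i - n))) (n + k) = a k := fun k => by
      induction k with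
      | zero => exact (nd_congr n fun i hi => if_pos hi).trans h0.symm
      | succ k ih => rw [← add_assoc, nd, ih, hs]; simp
    refine ⟨fun i => if i < n then y i else mm (a (i - n)), n + 1, fun k hk => ?_⟩
    obtain ⟨k, rfl⟩ := Nat.exists_eq_add_of_le hk
    rw [add_assoc, add_comm 1, h2, hs]
    exact (hmm _ (h1 k)).1
  · refine absurd ?_ (hθ (2 ^ E (J + 1)) (by positivity))
    have : ∀ k, ‖x (J + 1)‖ ≤ ‖x (J + 1 + k)‖ := fun k => by
      induction k with
      | zero => rfl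
      | succ k ih =>
        have h1 : ‖x (J + 1 + k)‖ ≤ w (J + 1 + k) / 2 := not_lt.1 fun h => hb
          ⟨(unpair (J + k)).2, (unpair (J + k)).1, by rw [pair_unpair]; omega, by
            rwa [pair_unpair, ← add_right_comm]⟩
        have h2 : x (J + 1 + (k + 1)) = (8 ^ (J + 1 + k + 1) : ℕ) • x (J + 1 + k) := by
          simp only [x, ← add_assoc, E, ← mul_smul]
          rw [pow_add, pow_mul, mul_comm]; rfl
        have h3 : (1 : ℝ) ≤ 8 ^ (J + 1 + k + 1) := one_le_pow₀ (by norm_num)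
        rw [h2, norm_mul (x (J + 1 + k))] <;> push_cast
        · nlinarith [norm_nonneg (x (J + 1 + k))]
        · simp only [w] at h1
          rwa [div_right_comm, le_div_iff₀' (by positivity)] at h1
    refine norm_le_zero_iff.1 (le_of_forall_pos_le_add fun ε hε => ?_)
    obtain ⟨K, hK⟩ := hx0 ε hε
    linarith [this K, hK (J + 1 + K) (by omega)]

lemma branch {T : ℕ → Prop} {b : ℕ → ℕ} (hb : ∀ n, T (nd b (n + 1))) : sq T ∈ S := by
  classical
  obtain ⟨d, hd⟩ := (nd_mono b).injective.hasLeftInverse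
  obtain ⟨g, g1, g2⟩ : ∃ g : ℕ → ℝ, (∀ m n, g (pair m (nd b n) + 1) =
      if m ≤ b n then (1 / 2) ^ n else 0) ∧ (∀ m e, e ∉ range (nd b) → g (pair m e + 1) = 0) ∧
      g 0 = 0 := ⟨fun j => Nat.casesOn j 0 fun j => if (unpair j).2 ∈ range (nd b) ∧
        (unpair j).1 ≤ b (d (unpair j).2) then (1 / 2) ^ d (unpair j).2 else 0,
      fun m n => by simp [hd n], fun m e he => by simp [he], rfl⟩
  have g3 : ∀ j, g j = 0 ∨ ∃ n, nd b n < j ∧ j ≤ nd b (n + 1) ∧ g j = (1 / 2) ^ n := fun j => by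
    cases j with
    | zero => exact Or.inl g2.2
    | succ j =>
      rw [← pair_unpair j]
      by_cases h : (unpair j).2 ∈ range (nd b)
      · obtain ⟨n, h⟩ := h
        rw [← h, g1]
        split_ifs with h'
        · exact Or.inr ⟨n, Nat.lt_succ_of_le (right_le_pair _ _), Nat.succ_le_succ
            (h'.eq_or_lt.elim (fun h => h ▸ le_rfl) fun h => (pair_lt_pair_left _ h).le), rfl⟩
        · exact Or.inl rfl
      · exact Or.inl (g2.1 _ _ h)
  have g4 : ∀ N j, nd b N < j + 1 → 0 ≤ g j ∧ g j ≤ 2 * (1 / 2) ^ N := fun N j hj => by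
    rcases g3 j with h | ⟨n, -, h1, h⟩ <;> rw [h]
    · exact ⟨le_rfl, by positivity⟩
    · have : N ≤ n + 1 := (nd_mono b).le_iff_le.1 (by omega)
      refine ⟨by positivity, le_trans (by rw [pow_succ]; linarith)
        (mul_le_mul_of_nonneg_left (pow_le_pow_of_le_one (by norm_num) (by norm_num) this) two_pos.le)⟩
  have g5 : ∀ m e, g (pair m e + 1) = g (nx (pair m e + 1)) +
      if T (pair m e + 1) then 2 * g (ch (pair m e + 1)) else 0 := fun m e => by
    rw [lt_nx, ch]
    by_cases h : pair m e + 1 ∈ range (nd b)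
    · obtain ⟨_ | n, h⟩ := h
      · simp [nd] at h
      · rw [← h, if_pos (hb n), g1 0, if_pos (Nat.zero_le _)]
        simp only [nd, Nat.add_right_cancel_iff, pair_eq_pair] at h
        rw [← h.1, ← h.2, nd, g1, g1, if_pos le_rfl, if_neg (by omega)]; ring
    · rw [g2.1 _ _ h]
      by_cases he : e ∈ range (nd b)
      · obtain ⟨n, rfl⟩ := he
        have : m ≠ b n := fun h' => h ⟨n + 1, by rw [h', nd]⟩
        simp only [g1, show m + 1 ≤ b n ↔ m ≤ b n by omega]; simp
      · simp [g2.1 _ _ he]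
  have hE : ∀ j i, E j + i ≤ E (i + j) := fun j i => by
    induction i with
    | zero => simp
    | succ i ih => rw [add_right_comm, E]; omega
  have hu : ∀ N j i, nd b N ≤ j → g (i + j) / 2 ^ E (i + j) ≤ 2 * (1 / 2) ^ N / 2 ^ E j * (1 / 2) ^ i :=
    fun N j i h => by
      rw [one_div_pow 2 i, _root_.div_mul_div_comm, mul_one, ← pow_add]
      gcongr
      exacts [(g4 N _ (by omega)).2, one_le_two, hE j i]
  have hu0 : ∀ j, 0 ≤ g j / 2 ^ E j := fun j => div_nonneg (g4 0 j (by simp [nd])).1 (by positivity)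
  have hs : ∀ j, Summable fun i => g (i + j) / 2 ^ E (i + j) := fun j =>
    Summable.of_nonneg_of_le (fun _ => hu0 _) (fun i => hu 0 j i (by simp [nd]))
      (summable_geometric_two.mul_left _)
  obtain ⟨t, t0, t1, t2⟩ : ∃ t : ℕ → ℝ, (∀ j, 0 ≤ t j) ∧ (∀ j, t j = g j + t (j + 1) / 8 ^ (j + 1)) ∧
      ∀ N j, nd b N ≤ j → t j ≤ 4 * (1 / 2) ^ N := by
    refine ⟨fun j => 2 ^ E j * ∑' i, g (i + j) / 2 ^ E (i + j), fun j =>
      mul_nonneg (by positivity) (tsum_nonneg fun _ => hu0 _), fun j => ?_, fun N j h => ?_⟩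
    · beta_reduce
      rw [(hs j).tsum_eq_zero_add]
      simp only [zero_add, add_assoc, add_comm 1 j]
      rw [E, pow_add (2 : ℝ) (E j), pow_mul]
      norm_num; field_simp
    · have := (hs j).tsum_le_tsum (fun i => hu N j i h) (summable_geometric_two.mul_left _)
      rw [tsum_mul_left, tsum_geometric_two] at this
      refine (mul_le_mul_of_nonneg_left this (by positivity)).trans_eq ?_
      field_simp; norm_num
  have hx : ∀ j, (2 ^ E j : ℤ) • (t 0 : UnitAddCircle) = t j := fun j => by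
    induction j with
    | zero => simp [E]
    | succ j ih =>
      rw [E, pow_add, mul_comm, mul_smul, ih, ← AddCircle.coe_zsmul, t1 j, pow_mul]
      have : ((((2 ^ 3) ^ (j + 1) : ℤ) • g j : ℝ) : UnitAddCircle) = 0 := by
        rcases g3 j with h | ⟨n, h1, -, h⟩ <;> rw [h]
        · simp
        · have : n ≤ 3 * (j + 1) := by have := (nd_mono b).le_apply (x := n); omega
          obtain ⟨k, hk⟩ := Nat.exists_eq_add_of_le this
          refine (AddCircle.coe_eq_zero_iff 1).2 ⟨2 ^ k, ?_⟩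
          rw [← pow_mul, hk]; simp [pow_add]; field_simp
      rw [smul_add, AddCircle.coe_add, this, zero_add]
      congr 1; norm_num; field_simp
  have small : ∀ ε > 0, ∃ N, 16 * (1 / 2 : ℝ) ^ N < ε := fun ε hε =>
    (exists_pow_lt_of_lt_one (show 0 < ε / 16 by positivity) (by norm_num : (1 / 2 : ℝ) < 1)).imp
      fun N h => by linarith
  refine mem_S.2 ⟨t 0, fun N hN h => ?_, tend.2 fun ε hε => ?_⟩
  · obtain ⟨n, hn⟩ := small (1 / N) (by positivity)
    have h1 : ((N • t (nd b (n + 1)) : ℝ) : UnitAddCircle) = 0 := by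
      rw [AddCircle.coe_nsmul, ← hx, smul_comm, h, smul_zero]
    obtain ⟨k, hk⟩ := (AddCircle.coe_eq_zero_iff 1).1 h1
    have h2 := t2 n _ ((nd_mono b).monotone (Nat.le_succ n))
    have h3 : 0 < t (nd b (n + 1)) := by
      rw [t1, nd, g1, if_pos le_rfl]; have := t0 (pair (b n) (nd b n) + 1 + 1); positivity
    have h4 : (0 : ℝ) < N := by exact_mod_cast hN
    rw [lt_div_iff₀ h4] at hn
    simp only [zsmul_eq_mul, mul_one, nsmul_eq_mul] at hk
    have h5 : (0 : ℝ) < k := hk ▸ mul_pos h4 h3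
    have h6 : (k : ℝ) < 1 := by rw [hk]; nlinarith
    have : 0 < k := by exact_mod_cast h5
    have : k < 1 := by exact_mod_cast h6
    omega
  · obtain ⟨N, hN⟩ := small ε hε
    refine ⟨nd b N + 1, fun j hj i => ?_⟩
    have hp : 0 < (1 / 2 : ℝ) ^ N := by positivity
    have nle : ∀ r : ℝ, ‖(r : UnitAddCircle)‖ ≤ |r| := fun r => QuotientAddGroup.norm_mk_le_norm
    rw [c]
    by_cases h1 : i = 0
    · rw [if_pos h1, hx]; linarith [nle (t j), abs_of_nonneg (t0 j), t2 N j (by omega)]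
    rw [if_neg h1]
    by_cases h2 : i ≤ 3 * (j + 1) + 1
    swap
    · rw [if_neg h2]; simpa using hε
    obtain ⟨j, rfl⟩ : ∃ k, j = k + 1 := ⟨j - 1, by omega⟩
    have h5 := g5 (unpair j).1 (unpair j).2
    have h6 : j + 1 < nx (j + 1) := by
      have := pair_lt_pair_left (unpair j).2 (lt_add_one (unpair j).1)
      rw [pair_unpair] at this
      simpa [nx] using this
    have h7 : j + 1 < ch (j + 1) := Nat.lt_succ_of_le (right_le_pair _ _)
    rw [pair_unpair] at h5
    have h8 : ∀ k, j + 1 ≤ k → 0 ≤ 2 ^ (i - 1) * (t (k + 1) / 8 ^ (k + 1)) ∧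
        2 ^ (i - 1) * (t (k + 1) / 8 ^ (k + 1)) ≤ 4 * (1 / 2) ^ N := fun k hk => by
      have := t0 (k + 1)
      refine ⟨by positivity, le_trans ?_ (t2 N (k + 1) (by omega))⟩
      rw [mul_div_left_comm]
      refine mul_le_of_le_one_right this (div_le_one_of_le₀ ?_ (by positivity))
      rw [show (8 : ℝ) = 2 ^ 3 by norm_num, ← pow_mul]
      exact pow_le_pow_right₀ one_le_two (by omega)
    have := h8 _ le_rfl
    have := h8 _ h6.le
    have := h8 _ h7.le
    rw [if_pos h2, mul_smul, sub_smul, sub_smul, hx, hx]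
    split_ifs at h5 ⊢
    · rw [mul_smul, hx, ← AddCircle.coe_zsmul, ← AddCircle.coe_sub, ← AddCircle.coe_sub,
        ← AddCircle.coe_zsmul, t1, t1 (nx _), t1 (ch _), h5]
      refine (nle _).trans_lt (abs_lt.2 ?_)
      simp only [zsmul_eq_mul]; push_cast
      constructor <;> nlinarith
    · rw [zero_smul, sub_zero, ← AddCircle.coe_sub, ← AddCircle.coe_zsmul, t1, t1 (nx _), h5]
      refine (nle _).trans_lt (abs_lt.2 ?_)
      simp only [zsmul_eq_mul]; push_cast
      constructor <;> nlinarith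

theorem result : ¬ @MeasurableSet (ℕ → ℤ) (borel (ℕ → ℤ)) S := by
  classical
  rw [← BorelSpace.measurable_eq (α := ℕ → ℤ)]
  intro hS
  let T : (ℕ → ℕ) → ℕ → Prop := fun x j =>
    ∃ u : Fin j → ℕ, (∀ i : Fin j, x i = u i) ∧ x (pair j (Encodable.encode u)) = 1
  have hm : Measurable fun x => sq (T x) := measurable_pi_lambda _ fun k =>
    (measurable_from_top (f := fun P => c P (unpair k).1 (unpair k).2)).comp (by
      simp only [T]; fun_prop)
  have : ∃ R : Set (ℕ → ℕ), MeasureTheory.AnalyticSet R ∧ ∀ x, x ∈ R ↔ sq (T x) ∉ S :=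
    ⟨_, (hm hS).compl.analyticSet, fun _ => Iff.rfl⟩
  obtain ⟨R, this, h⟩ := this
  rw [MeasureTheory.AnalyticSet] at this
  rcases this with rfl | ⟨f, hf, rfl⟩
  · obtain ⟨b, N, h⟩ := wf (not_not.1 fun h' => (h fun _ => 0).2 h')
    obtain ⟨u, -, h⟩ := h N le_rfl
    simp at h
  let x : ℕ → ℕ := fun c =>
    if ∃ y n, c = pair (nd y n) (Encodable.encode fun i : Fin (nd y n) => f y i) then 1 else 0
  by_cases hx : x ∈ range f
  · refine (h x).1 hx (branch (b := hx.choose) fun n => ⟨_, fun _ => rfl, ?_⟩)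
    exact if_pos ⟨hx.choose, n + 1, by rw [hx.choose_spec]⟩
  · obtain ⟨b, N, hb⟩ := wf (not_not.1 fun h' => hx ((h x).2 h'))
    have : ∀ n, ∃ y, (∀ i < n, y i = b i) ∧ ∀ i < n, f y i = x i := fun n => by
      obtain ⟨u, h1, h2⟩ := hb (n + N) (by omega)
      obtain ⟨y, m, h3⟩ := of_not_not fun h => zero_ne_one ((if_neg h).symm.trans h2)
      have h5 := (nd_mono b).le_apply (x := n + N)
      refine ⟨y, fun i hi => (nd_inj (pair_eq_pair.1 h3).1 i (by omega)).symm, fun i hi => ?_⟩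
      generalize nd b (n + N) = j at *
      obtain ⟨rfl, h4⟩ := pair_eq_pair.1 h3
      rw [h1 ⟨i, by omega⟩, Encodable.encode_injective h4]
    choose y h1 h2 using this
    have lim : ∀ {α : Type} [TopologicalSpace α] (y : ℕ → ℕ → α) (b : ℕ → α),
        (∀ n, ∀ i < n, y n i = b i) → Tendsto y atTop (𝓝 b) := fun y b h =>
      tendsto_pi_nhds.2 fun i => tendsto_const_nhds.congr'
        ((eventually_gt_atTop i).mono fun n hn => (h n i hn).symm)
    exact hx ⟨b, tendsto_nhds_unique ((hf.tendsto b).comp (lim y b h1)) (lim _ x h2)⟩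

end Pool.Agent.Results.MP_9e8ffd_lc.NotBorel
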